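import Pool.Agent.W610.HY.Stm3

set_option autoImplicit false

namespace Pool.Agent.W229.HY.ABM

open MeasureTheory Set Metric Filter Topology
open Pool.Agent.W610.HY

theorem norm_cm (c : ℂ) (r θ : ℝ) (hr : 0 < r) : ‖circleMap c r θ - c‖ = r := by
  rw [circleMap_sub_center, norm_circleMap_zero, abs_of_pos hr]

theorem norm_u (θ : ℝ) : ‖circleMap 0 1 θ‖ = 1 := by
  rw [norm_circleMap_zero, abs_one]

/-- the measure -/
noncomputable abbrev mu : Measure ℝ := volume.restrict (Ioc (0:ℝ) (2 * Real.pi))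

theorem intv {E : Type} [NormedAddCommGroup E] [NormedSpace ℝ E] (f : ℝ → E) :
    (∫ θ in (0:ℝ)..(2 * Real.pi), f θ) = ∫ θ, f θ ∂mu :=
  intervalIntegral.integral_of_le (by positivity)

instance : IsFiniteMeasure mu := by
  unfold mu
  infer_instance

section

variable {E : Type} [NormedAddCommGroup E] [NormedSpace ℂ E]

theorem F_sm (F : ℂ → E) (hF : StronglyMeasurable F) (P : Set ℂ) (c : ℂ) (r : ℝ) (h : ℝ → ℂ)
    (hg : GoodV P F c r h) :
    StronglyMeasurable (fun θ => (h θ * circleMap 0 1 θ) • F (circleMap c r θ)) := by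
  refine StronglyMeasurable.smul ?_ ?_
  · exact (hg.meas.mul (continuous_circleMap 0 1).measurable).stronglyMeasurable
  · exact hF.comp_measurable (continuous_circleMap c r).measurable

theorem F_bd (F : ℂ → E) (P : Set ℂ) (c : ℂ) (r : ℝ) (h : ℝ → ℂ)
    (hg : GoodV P F c r h) :
    ∀ᵐ θ ∂mu, ‖(h θ * circleMap 0 1 θ) • F (circleMap c r θ)‖ ≤ 1 := by
  filter_upwards [hg.bound] with θ hθ
  rw [norm_smul, norm_mul, norm_u, mul_one]
  exact hθ

theorem F_int (F : ℂ → E) (hF : StronglyMeasurable F) (P : Set ℂ) (c : ℂ) (r : ℝ) (h : ℝ → ℂ)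
    (hg : GoodV P F c r h) :
    Integrable (fun θ => (h θ * circleMap 0 1 θ) • F (circleMap c r θ)) mu :=
  Integrable.mono' (g := fun _ => (1:ℝ)) (integrable_const _)
    (F_sm F hF P c r h hg).aestronglyMeasurable (F_bd F P c r h hg)

end

theorem main : Pool.Agent.W610.HY.ABM := by
  intro X _ _ _ T S x y P₁ P₂ f g c₁ c₂ r₁ r₂ h₁ h₂ hST hf hg hP₁ hP₂ g₁ g₂ hr
  have hd : ∀ θ φ : ℝ, ‖c₁ - c₂‖ - r₁ - r₂ ≤ ‖circleMap c₂ r₂ φ - circleMap c₁ r₁ θ‖ := by
    intro θ φ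
    have e1 := norm_cm c₁ r₁ θ g₁.pos
    have e2 := norm_cm c₂ r₂ φ g₂.pos
    have e3 : c₁ - c₂ = -(circleMap c₁ r₁ θ - c₁) - (circleMap c₂ r₂ φ - circleMap c₁ r₁ θ) +
        (circleMap c₂ r₂ φ - c₂) := by ring
    have e4 : ‖c₁ - c₂‖ ≤ ‖circleMap c₁ r₁ θ - c₁‖ + ‖circleMap c₂ r₂ φ - circleMap c₁ r₁ θ‖ +
        ‖circleMap c₂ r₂ φ - c₂‖ := by
      rw [e3]
      refine (norm_add_le _ _).trans ?_
      refine add_le_add ((norm_sub_le _ _).trans ?_) le_rfl
      rw [norm_neg]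
    rw [e1, e2] at e4
    linarith
  have hdpos : 0 < ‖c₁ - c₂‖ - r₁ - r₂ := by linarith
  have hne : ∀ θ φ : ℝ, circleMap c₂ r₂ φ - circleMap c₁ r₁ θ ≠ 0 := by
    intro θ φ h
    have := hd θ φ
    rw [h, norm_zero] at this
    linarith
  have w1 : ∀ θ : ℝ, r₂ < ‖circleMap c₁ r₁ θ - c₂‖ := by
    intro θ
    have e1 := norm_cm c₁ r₁ θ g₁.pos
    have e2 : ‖c₁ - c₂‖ ≤ ‖circleMap c₁ r₁ θ - c₁‖ + ‖circleMap c₁ r₁ θ - c₂‖ := by
      have : c₁ - c₂ = -(circleMap c₁ r₁ θ - c₁) + (circleMap c₁ r₁ θ - c₂) := by ring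
      rw [this]
      refine (norm_add_le _ _).trans ?_
      rw [norm_neg]
    linarith
  have w2 : ∀ φ : ℝ, r₁ < ‖circleMap c₂ r₂ φ - c₁‖ := by
    intro φ
    have e1 := norm_cm c₂ r₂ φ g₂.pos
    have e2 : ‖c₁ - c₂‖ ≤ ‖circleMap c₂ r₂ φ - c₁‖ + ‖circleMap c₂ r₂ φ - c₂‖ := by
      have : c₁ - c₂ = -(circleMap c₂ r₂ φ - c₁) + (circleMap c₂ r₂ φ - c₂) := by ring
      rw [this]
      refine (norm_add_le _ _).trans ?_
      rw [norm_neg]
    linarith
  -- the two functions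
  set F1 : ℝ → X := fun θ => (h₁ θ * circleMap 0 1 θ) • f (circleMap c₁ r₁ θ) with hF1
  set F2 : ℝ → (X →L[ℂ] ℂ) := fun θ => (h₂ θ * circleMap 0 1 θ) • g (circleMap c₂ r₂ θ) with hF2
  have i1 : Integrable F1 mu := F_int f hf P₁ c₁ r₁ h₁ g₁
  have i2 : Integrable F2 mu := F_int g hg P₂ c₂ r₂ h₂ g₂
  have a1 : IV f c₁ r₁ h₁ = ∫ θ, F1 θ ∂mu := intv _
  have a2 : IV g c₂ r₂ h₂ = ∫ φ, F2 φ ∂mu := intv _
  -- scalar kernel
  set k : ℝ → ℝ → ℂ := fun θ φ =>
    h₁ θ * circleMap 0 1 θ / (circleMap c₂ r₂ φ - circleMap c₁ r₁ θ) with hk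
  set G : ℝ → ℝ → ℂ := fun θ φ => k θ φ * F2 φ (S x) with hG
  have kb : ∀ᵐ θ ∂mu, ∀ φ, ‖k θ φ‖ ≤ (‖c₁ - c₂‖ - r₁ - r₂)⁻¹ := by
    filter_upwards [g₁.le_one] with θ hθ φ
    simp only [hk, norm_div, norm_mul, norm_u, mul_one]
    rw [div_eq_mul_inv]
    calc ‖h₁ θ‖ * ‖circleMap c₂ r₂ φ - circleMap c₁ r₁ θ‖⁻¹
        ≤ 1 * (‖c₁ - c₂‖ - r₁ - r₂)⁻¹ := by
          apply mul_le_mul hθ (inv_anti₀ hdpos (hd θ φ)) (by positivity) (by norm_num)
      _ = _ := one_mul _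
  have F2b : ∀ᵐ φ ∂mu, ‖F2 φ (S x)‖ ≤ ‖S x‖ := by
    filter_upwards [F_bd g P₂ c₂ r₂ h₂ g₂] with φ hφ
    refine ((F2 φ).le_opNorm (S x)).trans ?_
    calc ‖F2 φ‖ * ‖S x‖ ≤ 1 * ‖S x‖ := mul_le_mul_of_nonneg_right hφ (norm_nonneg _)
      _ = _ := one_mul _
  have km : Measurable (fun p : ℝ × ℝ => k p.1 p.2) := by
    have m1 : Measurable (fun p : ℝ × ℝ => h₁ p.1 * circleMap 0 1 p.1) :=
      (g₁.meas.comp measurable_fst).mul ((continuous_circleMap 0 1).measurable.comp measurable_fst)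
    have m2 : Measurable (fun p : ℝ × ℝ => circleMap c₂ r₂ p.2 - circleMap c₁ r₁ p.1) :=
      ((continuous_circleMap c₂ r₂).measurable.comp measurable_snd).sub
        ((continuous_circleMap c₁ r₁).measurable.comp measurable_fst)
    exact m1.div m2
  have F2m : StronglyMeasurable (fun φ => F2 φ (S x)) :=
    (ContinuousLinearMap.apply ℂ ℂ (S x)).continuous.comp_stronglyMeasurable
      (F_sm g hg P₂ c₂ r₂ h₂ g₂)
  have iG : Integrable (Function.uncurry G) (mu.prod mu) := by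
    have hm : AEStronglyMeasurable (Function.uncurry G) (mu.prod mu) := by
      refine StronglyMeasurable.aestronglyMeasurable ?_
      refine StronglyMeasurable.mul ?_ ?_
      · exact km.stronglyMeasurable
      · exact F2m.comp_measurable measurable_snd
    refine Integrable.mono' (g := fun _ => (‖c₁ - c₂‖ - r₁ - r₂)⁻¹ * ‖S x‖)
      (integrable_const _) hm ?_
    have e1 := (Measure.quasiMeasurePreserving_fst (μ := mu) (ν := mu)).ae kb
    have e2 := (Measure.quasiMeasurePreserving_snd (μ := mu) (ν := mu)).ae F2b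
    filter_upwards [e1, e2] with p hp1 hp2
    change ‖k p.1 p.2 * F2 p.2 (S x)‖ ≤ _
    rw [norm_mul]
    exact mul_le_mul (hp1 p.2) hp2 (norm_nonneg _) (by positivity)
  -- inner integral over θ vanishes
  have in1 : ∀ φ, (∫ θ, G θ φ ∂mu) = 0 := by
    intro φ
    have e : (∫ θ, G θ φ ∂mu) = (∫ θ, k θ φ ∂mu) * F2 φ (S x) := integral_mul_const _ _
    rw [e]
    have v := g₁.van (circleMap c₂ r₂ φ) (w2 φ)
    rw [intv] at v
    have : (∫ θ, k θ φ ∂mu) = -(∫ θ, h₁ θ * (circleMap 0 1 θ /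
        (circleMap c₁ r₁ θ - circleMap c₂ r₂ φ)) ∂mu) := by
      rw [← integral_neg]
      refine integral_congr_ae (Eventually.of_forall fun θ => ?_)
      simp only [hk]
      rw [← neg_sub (circleMap c₂ r₂ φ) (circleMap c₁ r₁ θ), div_neg, mul_neg, neg_neg,
        mul_div_assoc]
    rw [this, v, neg_zero, zero_mul]
  -- key identity
  have key : ∀ z ∈ P₁, ∀ w ∈ P₂, (w - z) * g w (S (f z)) = y (S (f z)) - g w (S x) := by
    intro z hz w hw
    have e1 : y (S (f z)) = w * g w (S (f z)) - g w (T (S (f z))) := by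
      rw [← hP₂ w hw]
      simp
    have e2 : S x = z • S (f z) - S (T (f z)) := by
      rw [← hP₁ z hz]
      simp
    have e3 : S (T (f z)) = T (S (f z)) := by
      have := congrArg (fun A : X →L[ℂ] X => A (f z)) hST
      simpa using this
    rw [e1, e2, e3, map_sub, map_smul, smul_eq_mul]
    ring
  -- product for fixed θ
  have in2 : ∀ᵐ θ ∂mu, (∫ φ, F2 φ (S (F1 θ)) ∂mu) = -(∫ φ, G θ φ ∂mu) := by
    filter_upwards [g₁.res, kb] with θ hθ hkb
    have kmθ : Measurable (fun φ => k θ φ) := km.comp (measurable_const.prodMk measurable_id)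
    -- integrable pieces
    have iGθ : Integrable (fun φ => G θ φ) mu := by
      refine Integrable.mono' (g := fun _ => (‖c₁ - c₂‖ - r₁ - r₂)⁻¹ * ‖S x‖)
        (integrable_const _) (kmθ.stronglyMeasurable.mul F2m).aestronglyMeasurable ?_
      filter_upwards [F2b] with φ hφ
      change ‖k θ φ * F2 φ (S x)‖ ≤ _
      rw [norm_mul]
      exact mul_le_mul (hkb φ) hφ (norm_nonneg _) (by positivity)
    have iKθ : Integrable (fun φ => (k θ φ * (h₂ φ * circleMap 0 1 φ)) *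
        y (S (f (circleMap c₁ r₁ θ)))) mu := by
      have : Integrable (fun φ => k θ φ * (h₂ φ * circleMap 0 1 φ)) mu := by
        refine Integrable.mono' (g := fun _ => (‖c₁ - c₂‖ - r₁ - r₂)⁻¹) (integrable_const _)
          (kmθ.mul (g₂.meas.mul (continuous_circleMap 0 1).measurable)).aestronglyMeasurable ?_
        filter_upwards [g₂.le_one] with φ hφ
        rw [norm_mul, norm_mul, norm_u, mul_one]
        calc ‖k θ φ‖ * ‖h₂ φ‖ ≤ (‖c₁ - c₂‖ - r₁ - r₂)⁻¹ * 1 := by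
              apply mul_le_mul (hkb φ) hφ (norm_nonneg _) (by positivity)
          _ = _ := mul_one _
      exact this.mul_const _
    have e1 : (∫ φ, F2 φ (S (F1 θ)) ∂mu) = ∫ φ, ((k θ φ * (h₂ φ * circleMap 0 1 φ)) *
        y (S (f (circleMap c₁ r₁ θ))) - G θ φ) ∂mu := by
      refine integral_congr_ae ?_
      filter_upwards [g₂.res] with φ hφ
      have hkey := key _ hθ _ hφ
      have hn := hne θ φ
      simp only [hF1, hG, hF2, hk]
      rw [map_smul, ContinuousLinearMap.smul_apply, ContinuousLinearMap.smul_apply, map_smul]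
      simp only [smul_eq_mul]
      have h3 : g (circleMap c₂ r₂ φ) (S (f (circleMap c₁ r₁ θ))) =
          (y (S (f (circleMap c₁ r₁ θ))) - g (circleMap c₂ r₂ φ) (S x)) /
            (circleMap c₂ r₂ φ - circleMap c₁ r₁ θ) := by
        rw [← hkey, mul_div_cancel_left₀ _ hn]
      rw [h3]
      field_simp
    rw [e1, integral_sub iKθ iGθ]
    have e2 : (∫ φ, (k θ φ * (h₂ φ * circleMap 0 1 φ)) * y (S (f (circleMap c₁ r₁ θ))) ∂mu)
        = 0 := by
      rw [integral_mul_const]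
      have v := g₂.van (circleMap c₁ r₁ θ) (w1 θ)
      rw [intv] at v
      have : (∫ φ, k θ φ * (h₂ φ * circleMap 0 1 φ) ∂mu) = (h₁ θ * circleMap 0 1 θ) *
          (∫ φ, h₂ φ * (circleMap 0 1 φ / (circleMap c₂ r₂ φ - circleMap c₁ r₁ θ)) ∂mu) := by
        rw [← integral_const_mul]
        refine integral_congr_ae (Eventually.of_forall fun φ => ?_)
        simp only [hk]
        ring
      rw [this, v, mul_zero, zero_mul]
    rw [e2, zero_sub]
  -- assembly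
  have p1 : (IV g c₂ r₂ h₂) (S (IV f c₁ r₁ h₁)) = ∫ θ, (IV g c₂ r₂ h₂) (S (F1 θ)) ∂mu := by
    have := ContinuousLinearMap.integral_comp_comm ((IV g c₂ r₂ h₂).comp S) i1
    rw [a1]
    exact this.symm
  have p2 : ∀ θ, (IV g c₂ r₂ h₂) (S (F1 θ)) = ∫ φ, F2 φ (S (F1 θ)) ∂mu := by
    intro θ
    rw [a2]
    exact ContinuousLinearMap.integral_apply i2 _
  rw [p1]
  have p3 : (∫ θ, (IV g c₂ r₂ h₂) (S (F1 θ)) ∂mu) = ∫ θ, -(∫ φ, G θ φ ∂mu) ∂mu := by
    refine integral_congr_ae ?_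
    filter_upwards [in2] with θ hθ
    rw [p2 θ, hθ]
  rw [p3, integral_neg, integral_integral_swap iG]
  simp only [in1, integral_zero, neg_zero]

end Pool.Agent.W229.HY.ABM
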